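import Mathlib
import Pool.Agent.Results.MP_060d7c_co.GridExponent

/-!
# Distinct-distance subsets of the `d`-dimensional grid

The conjectured bound `k_d(n) < c d^(2/3) n^(2/3) (log n)^(1/3)` fails: for every fixed `d ≥ 3` and
every constant `C` one has `k_d(n) ≥ C n^(2/3) (log n)^(1/3)` for all large `n`. The sets come from
`MP_060d7c_co.GridExponent`, which gives `k_d(n) ≥ 17^(-d) n^(d/(d+1))`.
-/

set_option autoImplicit false

open Filter

namespace Pool.Agent.Results.MP_ae055e_co.Disproof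

/-- The cube `G_d(n) = {1,…,n}^d` in Euclidean `d`-space. -/
def Grid (d n : ℕ) : Set (EuclideanSpace ℝ (Fin d)) :=
  {x | ∀ i, ∃ j : ℕ, 1 ≤ j ∧ j ≤ n ∧ x i = j}

/-- `S` has distinct distances: the distances `|x - y|` over the unordered pairs of distinct points
of `S` are pairwise different. -/
def DistinctDistances {d : ℕ} (S : Finset (EuclideanSpace ℝ (Fin d))) : Prop :=
  ∀ x ∈ S, ∀ y ∈ S, ∀ z ∈ S, ∀ t ∈ S, x ≠ y → z ≠ t → dist x y = dist z t →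
    (x = z ∧ y = t) ∨ (x = t ∧ y = z)

/-- `k_d(n)`: the largest size of a subset of `G_d(n)` with distinct distances. -/
noncomputable def k (d n : ℕ) : ℕ :=
  sSup {s : ℕ | ∃ S : Finset (EuclideanSpace ℝ (Fin d)),
    (S : Set (EuclideanSpace ℝ (Fin d))) ⊆ Grid d n ∧ DistinctDistances S ∧ s = S.card}

lemma grid_finite (d n : ℕ) : (Grid d n).Finite := by
  let f : (Fin d → Fin (n + 1)) → EuclideanSpace ℝ (Fin d) :=
    fun v => WithLp.toLp 2 (fun i => ((v i : ℕ) : ℝ))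
  refine (Set.finite_range f).subset ?_
  intro x hx
  choose j hj using hx
  refine ⟨fun i => ⟨j i, by have := (hj i).2.1; omega⟩, ?_⟩
  ext i
  simp only [f]
  exact (hj i).2.2.symm

lemma card_le_k {d n : ℕ} {S : Finset (EuclideanSpace ℝ (Fin d))}
    (hS : (S : Set (EuclideanSpace ℝ (Fin d))) ⊆ Grid d n) (hD : DistinctDistances S) :
    S.card ≤ k d n := by
  classical
  refine le_csSup ⟨(grid_finite d n).toFinset.card, ?_⟩ ⟨S, hS, hD, rfl⟩
  rintro s ⟨T, hT, -, rfl⟩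
  apply Finset.card_le_card
  intro x hx
  rw [Set.Finite.mem_toFinset]
  exact hT hx

/-- The starting bound in terms of `k_d(n)`. -/
lemma k_lower (d n : ℕ) (hd : 1 ≤ d) (hn : 1 ≤ n) :
    (1 / 17 ^ d : ℝ) * (n : ℝ) ^ ((d : ℝ) / (d + 1)) ≤ k d n := by
  obtain ⟨S, hS, hD, hc⟩ := MP_060d7c_co.GridExponent.result d hd n hn
  have h1 : ((n ^ d : ℕ) : ℝ) ^ (1 / ((d : ℝ) + 1)) = (n : ℝ) ^ ((d : ℝ) / (d + 1)) := by
    push_cast
    rw [← Real.rpow_natCast, ← Real.rpow_mul (Nat.cast_nonneg n)]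
    congr 1
    ring
  rw [h1] at hc
  refine hc.trans ?_
  exact_mod_cast card_le_k hS hD

/-- For every `d ≥ 3` and every `c` one has `c d^(2/3) n^(2/3) (log n)^(1/3) ≤ k_d(n)` for all
large `n`; in particular no constant `c > 0` satisfies
`k_d(n) < c d^(2/3) n^(2/3) (log n)^(1/3)` for all `d ≥ 3`, `n ≥ 2`, and none does so for a single
fixed `d ≥ 3` and all `n ≥ 2`. -/
theorem result :
    (¬ ∃ c : ℝ, 0 < c ∧ ∀ d n : ℕ, 3 ≤ d → 2 ≤ n →
      (k d n : ℝ) < c * (d : ℝ) ^ (2 / 3 : ℝ) * (n : ℝ) ^ (2 / 3 : ℝ) *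
        Real.log n ^ (1 / 3 : ℝ)) ∧
    ∀ d : ℕ, 3 ≤ d → ∀ c : ℝ, ∀ᶠ n : ℕ in atTop,
      c * (d : ℝ) ^ (2 / 3 : ℝ) * (n : ℝ) ^ (2 / 3 : ℝ) * Real.log n ^ (1 / 3 : ℝ) ≤ k d n := by
  have main : ∀ d : ℕ, 3 ≤ d → ∀ c : ℝ, ∀ᶠ n : ℕ in atTop,
      c * (d : ℝ) ^ (2 / 3 : ℝ) * (n : ℝ) ^ (2 / 3 : ℝ) * Real.log n ^ (1 / 3 : ℝ) ≤ k d n := by
    intro d hd c
    -- `log n ^ (1/3) ≤ ε n ^ (1/12)` eventually
    set K : ℝ := (|c| + 1) * (d : ℝ) ^ (2 / 3 : ℝ) * 17 ^ d with hK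
    have hdpos : (0 : ℝ) < d := by
      have : 0 < d := by omega
      exact_mod_cast this
    have hKpos : 0 < K := by positivity
    have hlo := isLittleO_log_rpow_atTop (show (0 : ℝ) < 1 / 4 by norm_num)
    have hb := hlo.bound (show (0 : ℝ) < (K⁻¹) ^ 3 by positivity)
    have hb' := tendsto_natCast_atTop_atTop (R := ℝ) |>.eventually hb
    filter_upwards [hb', eventually_ge_atTop 3] with n hn hn3
    have hn1 : (1 : ℝ) < n := by
      have : 1 < n := by omega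
      exact_mod_cast this
    have hn0 : (0 : ℝ) < n := by linarith
    have hlog : 0 ≤ Real.log n := Real.log_nonneg hn1.le
    rw [Real.norm_of_nonneg hlog, Real.norm_of_nonneg (by positivity)] at hn
    have h1 : Real.log n ^ (1 / 3 : ℝ) ≤ K⁻¹ * (n : ℝ) ^ (1 / 12 : ℝ) := by
      have h2 : Real.log n ^ (1 / 3 : ℝ) ≤ ((K⁻¹) ^ 3 * (n : ℝ) ^ (1 / 4 : ℝ)) ^ (1 / 3 : ℝ) :=
        Real.rpow_le_rpow hlog hn (by norm_num)
      refine h2.trans (le_of_eq ?_)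
      rw [Real.mul_rpow (by positivity) (by positivity), ← Real.rpow_natCast (K⁻¹) 3,
        ← Real.rpow_mul (by positivity), ← Real.rpow_mul hn0.le]
      norm_num
    have hkl := k_lower d n (by omega) (by omega)
    refine le_trans ?_ hkl
    have h3 : (n : ℝ) ^ (3 / 4 : ℝ) ≤ (n : ℝ) ^ ((d : ℝ) / (d + 1)) := by
      apply Real.rpow_le_rpow_of_exponent_le hn1.le
      rw [div_le_div_iff₀ (by norm_num) (by positivity)]
      have : (3 : ℝ) ≤ d := by exact_mod_cast hd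
      linarith
    have h4 : (n : ℝ) ^ (2 / 3 : ℝ) * (n : ℝ) ^ (1 / 12 : ℝ) = (n : ℝ) ^ (3 / 4 : ℝ) := by
      rw [← Real.rpow_add hn0]; norm_num
    have hcK : c * (d : ℝ) ^ (2 / 3 : ℝ) ≤ K / 17 ^ d := by
      rw [hK, mul_div_assoc, div_self (by positivity), mul_one]
      apply mul_le_mul_of_nonneg_right _ (by positivity)
      linarith [le_abs_self c]
    calc c * (d : ℝ) ^ (2 / 3 : ℝ) * (n : ℝ) ^ (2 / 3 : ℝ) * Real.log n ^ (1 / 3 : ℝ)
        ≤ K / 17 ^ d * (n : ℝ) ^ (2 / 3 : ℝ) * Real.log n ^ (1 / 3 : ℝ) := by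
          apply mul_le_mul_of_nonneg_right _ (by positivity)
          exact mul_le_mul_of_nonneg_right hcK (by positivity)
      _ ≤ K / 17 ^ d * (n : ℝ) ^ (2 / 3 : ℝ) * (K⁻¹ * (n : ℝ) ^ (1 / 12 : ℝ)) :=
          mul_le_mul_of_nonneg_left h1 (by positivity)
      _ = (1 / 17 ^ d) * ((n : ℝ) ^ (2 / 3 : ℝ) * (n : ℝ) ^ (1 / 12 : ℝ)) := by
          field_simp
      _ = (1 / 17 ^ d) * (n : ℝ) ^ (3 / 4 : ℝ) := by rw [h4]
      _ ≤ (1 / 17 ^ d) * (n : ℝ) ^ ((d : ℝ) / (d + 1)) :=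
          mul_le_mul_of_nonneg_left h3 (by positivity)
  refine ⟨?_, main⟩
  rintro ⟨c, -, hc⟩
  obtain ⟨n, h1, h2⟩ := ((main 3 le_rfl c).and (eventually_ge_atTop 2)).exists
  have := hc 3 n le_rfl h2
  exact absurd h1 (not_le.2 this)

end Pool.Agent.Results.MP_ae055e_co.Disproof
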